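import Pool.Agent.TH234.BK.Main
import Pool.Agent.TH234.BK.Circ
import Pool.Agent.Helper112.Pf.JFtLinear
import Pool.Agent.Helper112.Pf.VBodyLinear

/-!
# Planar convex bodies with an elliptic polynomial factor

If the Fourier transform of a convex body of the plane has a polynomial factor which vanishes on a
real ellipse with centre 0, then the widths of the body in any two directions, measured with the
vectors of the ellipse, differ by a factor less than `3/2`.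
-/

set_option autoImplicit false

namespace Pool.Agent.Results.MP_a61b9a_an.EllipticFactor

open Helper112.Pf

/-- The quadratic form `a ξ₁² + 2 b ξ₁ ξ₂ + c ξ₂²`. -/
def quad (a b c : ℝ) (ξ : Fin 2 → ℝ) : ℝ := a * ξ 0 ^ 2 + 2 * b * (ξ 0 * ξ 1) + c * ξ 1 ^ 2

/-- The width of `K` with respect to the vector `u`: the supremum minus the infimum of `⟨x, u⟩` over
`x ∈ K`, that is, `|u|` times the distance of the two supporting lines of `K` orthogonal to `u`. -/
noncomputable def width (K : Set (Fin 2 → ℝ)) (u : Fin 2 → ℝ) : ℝ :=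
  sSup ((fun x : Fin 2 → ℝ => x 0 * u 0 + x 1 * u 1) '' K) -
    sInf ((fun x : Fin 2 → ℝ => x 0 * u 0 + x 1 * u 1) '' K)

/-- the linear change of variables -/
noncomputable def lin (α β γ : ℝ) (hα : α ≠ 0) (hγ : γ ≠ 0) : (Fin 2 → ℝ) ≃ₗ[ℝ] (Fin 2 → ℝ) where
  toFun x := ![x 0 / α, x 1 / γ - β * x 0 / (α * γ)]
  invFun y := ![α * y 0, γ * y 1 + β * y 0]
  map_add' x y := by
    ext i; fin_cases i
    · simp; ring
    · simp; ring
  map_smul' r x := by
    ext i; fin_cases i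
    · simp; ring
    · simp; ring
  left_inv x := by
    ext i; fin_cases i
    · simp; field_simp
    · simp; field_simp; ring
  right_inv y := by
    ext i; fin_cases i
    · simp; field_simp
    · simp; field_simp; ring

theorem lin_zero (α β γ : ℝ) (hα : α ≠ 0) (hγ : γ ≠ 0) (x : Fin 2 → ℝ) :
    lin α β γ hα hγ x 0 = x 0 / α := rfl

theorem lin_one (α β γ : ℝ) (hα : α ≠ 0) (hγ : γ ≠ 0) (x : Fin 2 → ℝ) :
    lin α β γ hα hγ x 1 = x 1 / γ - β * x 0 / (α * γ) := rfl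

theorem exists_angle (s t : ℝ) (h : s ^ 2 + t ^ 2 = 1) :
    ∃ θ : ℝ, s = -Real.sin θ ∧ t = Real.cos θ := by
  have h1 : ‖(⟨t, -s⟩ : ℂ)‖ = 1 := by
    rw [Complex.norm_def, Complex.normSq_mk]
    have : t * t + -s * -s = 1 := by nlinarith
    rw [this, Real.sqrt_one]
  have h2 : (⟨t, -s⟩ : ℂ) ≠ 0 := by
    intro h0; rw [h0] at h1; simp at h1
  refine ⟨Complex.arg ⟨t, -s⟩, ?_, ?_⟩
  · rw [Complex.sin_arg, h1]; simp
  · rw [Complex.cos_arg h2, h1]; simp

/-- **Planar convex bodies with an elliptic polynomial factor.** Let `K` be a convex body in the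
plane whose Fourier transform has a polynomial factor `p` which vanishes at the real points of the
ellipse `a ξ₁² + 2 b ξ₁ ξ₂ + c ξ₂² = 1` (for instance `p = a ζ₁² + 2 b ζ₁ ζ₂ + c ζ₂² - 1`, or a
multiple of it). Then `width K u < 3/2 width K v` for all vectors `u`, `v` of this ellipse. -/
theorem result (K : Set (Fin 2 → ℝ)) (hK : IsBody K) (p : MvPolynomial (Fin 2) ℂ)
    (hp : HasFactor p K) (a b c : ℝ) (ha : 0 < a) (hd : 0 < a * c - b ^ 2)
    (h0 : ∀ ξ : Fin 2 → ℝ, quad a b c ξ = 1 → MvPolynomial.eval (fun i => (ξ i : ℂ)) p = 0)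
    (u v : Fin 2 → ℝ) (hu : quad a b c u = 1) (hv : quad a b c v = 1) :
    width K u < 3 / 2 * width K v := by
  obtain ⟨α, β, γ, hα, hγ, rfl, rfl, rfl⟩ : ∃ α β γ : ℝ, 0 < α ∧ 0 < γ ∧ a = α ^ 2 ∧ b = α * β ∧
      c = β ^ 2 + γ ^ 2 := by
    have h1 : 0 < Real.sqrt a := Real.sqrt_pos.2 ha
    have h2 : Real.sqrt a ^ 2 = a := Real.sq_sqrt ha.le
    have h3 : 0 < c - (b / Real.sqrt a) ^ 2 := by
      rw [div_pow, h2, sub_pos, div_lt_iff₀ ha]
      nlinarith
    refine ⟨Real.sqrt a, b / Real.sqrt a, Real.sqrt (c - (b / Real.sqrt a) ^ 2), h1,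
      Real.sqrt_pos.2 h3, h2.symm, ?_, ?_⟩
    · field_simp
    · rw [Real.sq_sqrt h3.le]; ring
  obtain ⟨f, -, hf⟩ := hp
  obtain ⟨M, hM⟩ : ∃ M, M = lin α β γ hα.ne' hγ.ne' := ⟨_, rfl⟩
  have hM0 : ∀ x, M x 0 = x 0 / α := fun x => by rw [hM, lin_zero]
  have hM1 : ∀ x, M x 1 = x 1 / γ - β * x 0 / (α * γ) := fun x => by rw [hM, lin_one]
  have hB : IsBody (M '' K) := body_linear M K hK
  have hz : ∀ θ : ℝ, FT (M '' K) ![((1 * Real.cos θ : ℝ) : ℂ), ((1 * Real.sin θ : ℝ) : ℂ)] = 0 := by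
    intro θ
    obtain ⟨ξ, hξ⟩ : ∃ ξ : Fin 2 → ℝ,
        ξ = ![(Real.cos θ - β * Real.sin θ / γ) / α, Real.sin θ / γ] := ⟨_, rfl⟩
    have e0 : ξ 0 = (Real.cos θ - β * Real.sin θ / γ) / α := by rw [hξ]; rfl
    have e1 : ξ 1 = Real.sin θ / γ := by rw [hξ]; rfl
    have hq : quad (α ^ 2) (α * β) (β ^ 2 + γ ^ 2) ξ = 1 := by
      have e2 : α * ξ 0 + β * ξ 1 = Real.cos θ := by
        rw [e0, e1]; field_simp; ring
      have e3 : γ * ξ 1 = Real.sin θ := by rw [e1]; field_simp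
      have : quad (α ^ 2) (α * β) (β ^ 2 + γ ^ 2) ξ = (α * ξ 0 + β * ξ 1) ^ 2 + (γ * ξ 1) ^ 2 := by
        unfold quad; ring
      rw [this, e2, e3]
      exact Real.cos_sq_add_sin_sq θ
    obtain ⟨d, -, hd'⟩ := FT_linear M K hK.1
      ![((1 * Real.cos θ : ℝ) : ℂ), ((1 * Real.sin θ : ℝ) : ℂ)] (fun i => (ξ i : ℂ)) (by
        intro x
        rw [Fin.sum_univ_two, Fin.sum_univ_two, hM0, hM1, e0, e1]
        simp only [Matrix.cons_val_zero, Matrix.cons_val_one, one_mul]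
        have hα' : (α : ℂ) ≠ 0 := by exact_mod_cast hα.ne'
        have hγ' : (γ : ℂ) ≠ 0 := by exact_mod_cast hγ.ne'
        push_cast
        field_simp
        ring)
    rw [hd', hf, h0 ξ hq, zero_mul, mul_zero]
  have hz' : ∀ s t : ℂ, s ^ 2 + t ^ 2 = (((1:ℝ) ^ 2 : ℝ) : ℂ) → FT (M '' K) ![s, t] = 0 :=
    fun s t hst => Pool.Agent.TH234.BK.circle_complex hB.1 one_pos hz s t hst
  have hw : ∀ u : Fin 2 → ℝ, quad (α ^ 2) (α * β) (β ^ 2 + γ ^ 2) u = 1 →
      ∃ θ : ℝ, Pool.Agent.TH234.BK.wd (M '' K) θ = width K u := by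
    intro u hu
    obtain ⟨θ, h1, h2⟩ := exists_angle (α * u 0 + β * u 1) (γ * u 1) (by
      have : quad (α ^ 2) (α * β) (β ^ 2 + γ ^ 2) u = (α * u 0 + β * u 1) ^ 2 + (γ * u 1) ^ 2 := by
        unfold quad; ring
      rw [← this, hu])
    refine ⟨θ, ?_⟩
    have h3 : Pool.Agent.TH234.BK.gg θ '' (M '' K) =
        (fun x : Fin 2 → ℝ => x 0 * u 0 + x 1 * u 1) '' K := by
      rw [Set.image_image]
      refine Set.image_congr fun x _ => ?_
      unfold Pool.Agent.TH234.BK.gg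
      rw [← h1, ← h2, hM0, hM1]
      field_simp
      ring
    unfold Pool.Agent.TH234.BK.wd width
    rw [h3]
  obtain ⟨θ₁, h1⟩ := hw u hu
  obtain ⟨θ₀, h2⟩ := hw v hv
  rw [← h1, ← h2]
  exact Pool.Agent.TH234.BK.ratio hB one_pos hz' θ₁ θ₀

end Pool.Agent.Results.MP_a61b9a_an.EllipticFactor
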